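import Mathlib
import Pool.Agent.Helper948.Ent.A1

set_option autoImplicit false

/-!
# Shearer type inequality for sumsets

For finitely many summands and a family of index sets covering every index at least `r` times, the
`r`-th power of the number of full sums is at most the product of the numbers of partial sums.
(The lexicographically least representation argument of Gyarmati, Matolcsi and Ruzsa.)
-/

namespace Pool.Agent.X268.SumShearer

open Finset

open Classical in
theorem sum_shearer {T A B J : Type*} [Fintype T] [Fintype J] [AddCommGroup B] (X : Finset A)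
    (hX : X.Nonempty) (φ : T → A → B) (S : J → Finset T) (r : ℕ)
    (h : ∀ t, r ≤ (Finset.univ.filter (fun j => t ∈ S j)).card) :
    ((Fintype.piFinset fun _ : T => X).image (fun x => ∑ t, φ t (x t))).card ^ r ≤
      ∏ j, ((Fintype.piFinset fun _ : T => X).image (fun x => ∑ t ∈ S j, φ t (x t))).card := by
  have hsh0 := fun Fam : Finset (T → A) => fun hne =>
    Pool.Agent.Helper948.Ent.A1.shearer Fam hne S r h
  set P : Finset (T → A) := Fintype.piFinset fun _ : T => X with hP
  set Φ : (T → A) → B := fun x => ∑ t, φ t (x t) with hΦ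
  obtain ⟨a, ha⟩ := Set.countable_iff_exists_injOn.1 X.countable_toSet
  set e : T ≃ Fin (Fintype.card T) := Fintype.equivFin T with he
  set L : (T → A) → Lex (Fin (Fintype.card T) → ℕ) := fun x => toLex (fun i => a (x (e.symm i)))
    with hL
  have hLinj : ∀ x ∈ P, ∀ y ∈ P, L x = L y → x = y := by
    intro x hx y hy hxy
    funext t
    have h1 := congrFun (toLex.injective hxy) (e t)
    simp only [Equiv.symm_apply_apply] at h1
    exact ha (Fintype.mem_piFinset.1 hx t) (Fintype.mem_piFinset.1 hy t) h1
  -- minimal representations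
  set Fam : Finset (T → A) := P.filter (fun x => ∀ y ∈ P, Φ y = Φ x → L x ≤ L y) with hFam
  have hPne : P.Nonempty := by
    rw [hP, Fintype.piFinset_nonempty]; exact fun _ => hX
  have hmin : ∀ x ∈ P, ∃ y ∈ Fam, Φ y = Φ x := by
    intro x hx
    obtain ⟨y, hy, hymin⟩ := Finset.exists_min_image (P.filter (fun y => Φ y = Φ x)) L
      ⟨x, Finset.mem_filter.2 ⟨hx, rfl⟩⟩
    rw [Finset.mem_filter] at hy
    refine ⟨y, Finset.mem_filter.2 ⟨hy.1, fun z hz hzy => hymin z ?_⟩, hy.2⟩
    exact Finset.mem_filter.2 ⟨hz, hzy.trans hy.2⟩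
  have hne : Fam.Nonempty := by
    obtain ⟨x, hx⟩ := hPne
    obtain ⟨y, hy, -⟩ := hmin x hx
    exact ⟨y, hy⟩
  have hcard : (P.image Φ).card = Fam.card := by
    have himg : P.image Φ = Fam.image Φ := by
      apply Finset.Subset.antisymm
      · intro s hs
        obtain ⟨x, hx, rfl⟩ := Finset.mem_image.1 hs
        obtain ⟨y, hy, hyx⟩ := hmin x hx
        exact Finset.mem_image.2 ⟨y, hy, hyx⟩
      · exact Finset.image_subset_image (Finset.filter_subset _ _)
    rw [himg]
    apply Finset.card_image_of_injOn
    intro x hx y hy hxy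
    have hx' := Finset.mem_filter.1 (Finset.mem_coe.1 hx)
    have hy' := Finset.mem_filter.1 (Finset.mem_coe.1 hy)
    exact hLinj x hx'.1 y hy'.1 (le_antisymm (hx'.2 y hy'.1 hxy.symm) (hy'.2 x hx'.1 hxy))
  -- the key property of minimal representations
  have key : ∀ (V : Finset T) (x y : T → A), x ∈ Fam → y ∈ Fam →
      ∑ t ∈ V, φ t (x t) = ∑ t ∈ V, φ t (y t) → ∀ t ∈ V, x t = y t := by
    intro V x y hx hy hxy
    by_contra hcon
    push Not at hcon
    -- first index of difference
    obtain ⟨i, hi, himin⟩ := Finset.exists_min_image (V.filter (fun t => x t ≠ y t)) e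
      (by obtain ⟨t, ht, hne⟩ := hcon; exact ⟨t, Finset.mem_filter.2 ⟨ht, hne⟩⟩)
    rw [Finset.mem_filter] at hi
    -- symmetric step
    have step : ∀ (x y : T → A), x ∈ Fam → y ∈ Fam →
        ∑ t ∈ V, φ t (x t) = ∑ t ∈ V, φ t (y t) →
        (∀ t ∈ V, x t ≠ y t → e i ≤ e t) → a (x i) < a (y i) → False := by
      intro x y hx hy hxy hmin' hlt
      have hx' := Finset.mem_filter.1 hx
      have hy' := Finset.mem_filter.1 hy
      set z : T → A := fun t => if t ∈ V then x t else y t with hz
      have hzP : z ∈ P := by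
        rw [hP, Fintype.mem_piFinset]
        intro t
        rw [hz]
        dsimp only
        split_ifs
        · exact Fintype.mem_piFinset.1 hx'.1 t
        · exact Fintype.mem_piFinset.1 hy'.1 t
      have hzy : Φ z = Φ y := by
        rw [hΦ]
        dsimp only
        rw [← Finset.sum_add_sum_compl V, ← Finset.sum_add_sum_compl V (fun t => φ t (y t))]
        congr 1
        · rw [← hxy]
          apply Finset.sum_congr rfl
          intro t ht
          rw [hz]; dsimp only; rw [if_pos ht]
        · apply Finset.sum_congr rfl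
          intro t ht
          rw [hz]; dsimp only; rw [if_neg (Finset.mem_compl.1 ht)]
      have hle := hy'.2 z hzP hzy
      have hlt' : L z < L y := by
        refine ⟨e i, ?_, ?_⟩
        · intro j hj
          show a (z (e.symm j)) = a (y (e.symm j))
          rw [hz]; dsimp only
          split_ifs with hjV
          · by_contra hne
            have h1 := hmin' (e.symm j) hjV (fun h => hne (by rw [h]))
            rw [Equiv.apply_symm_apply] at h1
            exact absurd h1 (not_le.2 hj)
          · rfl
        · show a (z (e.symm (e i))) < a (y (e.symm (e i)))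
          rw [Equiv.symm_apply_apply, hz]; dsimp only; rw [if_pos hi.1]; exact hlt
      exact absurd hle (not_le.2 hlt')
    have hai : a (x i) ≠ a (y i) := fun h => hi.2
      (ha (Fintype.mem_piFinset.1 (Finset.mem_filter.1 hx).1 i)
        (Fintype.mem_piFinset.1 (Finset.mem_filter.1 hy).1 i) h)
    rcases lt_or_gt_of_ne hai with hlt | hlt
    · exact step x y hx hy hxy
        (fun t ht hne => himin t (Finset.mem_filter.2 ⟨ht, hne⟩)) hlt
    · exact step y x hy hx hxy.symm
        (fun t ht hne => himin t (Finset.mem_filter.2 ⟨ht, hne.symm⟩)) hlt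
  have hsh := hsh0 Fam hne
  rw [hcard]
  refine hsh.trans (Finset.prod_le_prod' fun j _ => ?_)
  apply Finset.card_le_card_of_injOn
    (fun z : {t // t ∈ S j} → A => ∑ t : {t // t ∈ S j}, φ t.1 (z t))
  · intro z hz
    obtain ⟨x, hx, rfl⟩ := Finset.mem_image.1 (Finset.mem_coe.1 hz)
    rw [Finset.mem_coe, Finset.mem_image]
    refine ⟨x, (Finset.mem_filter.1 hx).1, ?_⟩
    exact (Finset.sum_coe_sort (S j) (fun t => φ t (x t))).symm
  · intro z hz w hw hzw
    obtain ⟨x, hx, rfl⟩ := Finset.mem_image.1 (Finset.mem_coe.1 hz)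
    obtain ⟨y, hy, rfl⟩ := Finset.mem_image.1 (Finset.mem_coe.1 hw)
    dsimp only at hzw
    rw [Finset.sum_coe_sort (S j) (fun t => φ t (x t)),
      Finset.sum_coe_sort (S j) (fun t => φ t (y t))] at hzw
    funext t
    exact key (S j) x y hx hy hzw t.1 t.2

/-- The same with arbitrary decidability instances. -/
theorem sum_shearer' {T A B J : Type*} [Fintype T] [Fintype J] [AddCommGroup B]
    [i1 : DecidableEq T] [i2 : DecidableEq B] (X : Finset A)
    (hX : X.Nonempty) (φ : T → A → B) (S : J → Finset T) (r : ℕ)
    (h : ∀ t, ∃ R : Finset J, r ≤ R.card ∧ ∀ j ∈ R, t ∈ S j) :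
    ((Fintype.piFinset fun _ : T => X).image (fun x => ∑ t, φ t (x t))).card ^ r ≤
      ∏ j, ((Fintype.piFinset fun _ : T => X).image (fun x => ∑ t ∈ S j, φ t (x t))).card := by
  have e1 : i1 = fun a b => Classical.propDecidable (a = b) := Subsingleton.elim _ _
  have e2 : i2 = fun a b => Classical.propDecidable (a = b) := Subsingleton.elim _ _
  subst e1 e2
  refine sum_shearer X hX φ S r ?_
  intro t
  obtain ⟨R, hR, hRt⟩ := h t
  refine hR.trans (Finset.card_le_card ?_)
  intro j hj
  simp only [Finset.mem_filter, Finset.mem_univ, true_and]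
  exact hRt j hj

end Pool.Agent.X268.SumShearer
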