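import Mathlib
import Pool.Agent.X268.SumShearer

set_option autoImplicit false

/-!
# Algebraic entropy of actions of amenable groups: the infimum formula
-/

namespace Pool.Agent.X268.Entropy

open Finset Filter Topology
open scoped Pointwise ENNReal

open Classical in
/-- `|F g Δ F| / |F|`. -/
noncomputable def defect {G : Type*} [Group G] (g : G) (F : Finset G) : ℝ :=
  ((symmDiff (F.image (fun x => x * g)) F).card : ℝ) / (F.card : ℝ)

/-- The right Folner filter of `G`: a net of finite subsets is a right Folner net iff it tends to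
this filter. -/
noncomputable def folner (G : Type*) [Group G] : Filter (Finset G) :=
  𝓟 {F | F.Nonempty} ⊓ ⨅ g : G, comap (defect g) (𝓝 0)

/-- Amenability (Folner's condition). -/
def Amenable (G : Type*) [Group G] : Prop :=
  ∀ (E : Finset G) (ε : ℝ), 0 < ε → ∃ F : Finset G, F.Nonempty ∧ ∀ g ∈ E, defect g F ≤ ε

open Classical in
/-- The trajectory `T_F(X) = ∑_{g ∈ F} g • X` (a sumset). -/
noncomputable def traj {G A : Type*} [Group G] [AddCommGroup A] [DistribMulAction G A]
    (F : Finset G) (X : Finset A) : Finset A := ∑ g ∈ F, g • X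

/-- `H_alg(X)`, the limit of `log |T_F(X)| / |F|` along right Folner nets. -/
noncomputable def Halg (G : Type*) {A : Type*} [Group G] [AddCommGroup A] [DistribMulAction G A]
    (X : Finset A) : ℝ :=
  limUnder (folner G) (fun F : Finset G => Real.log ((traj F X).card : ℝ) / (F.card : ℝ))

/-- The algebraic entropy `h_alg`. -/
noncomputable def halg (G A : Type*) [Group G] [AddCommGroup A] [DistribMulAction G A] : ℝ≥0∞ :=
  ⨆ (X : Finset A) (_ : X.Nonempty), ENNReal.ofReal (Halg G X)

/-- The entropy `ent`: the supremum over finite subgroups. -/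
noncomputable def ent (G A : Type*) [Group G] [AddCommGroup A] [DistribMulAction G A] : ℝ≥0∞ :=
  ⨆ (X : Finset A) (_ : ∃ K : AddSubgroup A, (K : Set A) = (X : Set A)), ENNReal.ofReal (Halg G X)

/-! ### The Folner filter -/

section Folner

variable {G : Type*} [Group G]

lemma defect_eq [i : DecidableEq G] (g : G) (F : Finset G) :
    defect g F = ((symmDiff (F.image (fun x => x * g)) F).card : ℝ) / (F.card : ℝ) := by
  have e : i = fun a b => Classical.propDecidable (a = b) := Subsingleton.elim _ _
  subst e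
  rfl

lemma defect_nonneg (g : G) (F : Finset G) : 0 ≤ defect g F := by
  unfold defect; positivity

lemma tendsto_folner_iff {ι : Type*} (l : Filter ι) (F : ι → Finset G) :
    Tendsto F l (folner G) ↔
      (∀ᶠ i in l, (F i).Nonempty) ∧ ∀ g : G, Tendsto (fun i => defect g (F i)) l (𝓝 0) := by
  unfold folner
  rw [tendsto_inf, tendsto_principal, tendsto_iInf]
  simp only [tendsto_comap_iff, Function.comp_def, Set.mem_ofPred_eq]

lemma eventually_nonempty : ∀ᶠ F in folner G, F.Nonempty :=
  ((tendsto_folner_iff (folner G) id).1 tendsto_id).1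

lemma tendsto_defect (g : G) : Tendsto (fun F => defect g F) (folner G) (𝓝 0) :=
  ((tendsto_folner_iff (folner G) id).1 tendsto_id).2 g

lemma Amenable.neBot (h : Amenable G) : (folner G).NeBot := by
  classical
  choose F hF1 hF2 using fun p : Finset G × ℕ => h p.1 (1 / ((p.2 : ℝ) + 1)) (by positivity)
  have ht : Tendsto F atTop (folner G) := by
    rw [tendsto_folner_iff]
    refine ⟨Eventually.of_forall hF1, fun g => ?_⟩
    rw [Metric.tendsto_atTop]
    intro ε hε
    obtain ⟨n, hn⟩ := exists_nat_one_div_lt hε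
    refine ⟨({g}, n), fun p hp => ?_⟩
    rw [Real.dist_eq, sub_zero, abs_of_nonneg (defect_nonneg _ _)]
    refine (hF2 p g (hp.1 (by simp))).trans_lt (lt_of_le_of_lt ?_ hn)
    apply one_div_le_one_div_of_le (by positivity)
    have : ((n : ℕ) : ℝ) ≤ p.2 := by exact_mod_cast hp.2
    linarith
  have h1 : (map F atTop).NeBot := inferInstance
  exact NeBot.mono h1 ht

lemma inj_mul (H : Subgroup G) (g : G) : Function.Injective (fun h : H => g * (h : G)) :=
  fun _ _ hab => Subtype.ext (mul_left_cancel hab)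

/-- The section of `F` over the coset of `g`. -/
noncomputable def sec (H : Subgroup G) (g : G) (F : Finset G) : Finset H :=
  F.preimage (fun h : H => g * (h : G)) (inj_mul H g).injOn

lemma mem_sec {H : Subgroup G} {g : G} {F : Finset G} {h : H} :
    h ∈ sec H g F ↔ g * (h : G) ∈ F := Finset.mem_preimage

open Classical in
lemma card_sec (H : Subgroup G) (g : G) (F : Finset G) :
    (sec H g F).card = (F.filter (fun x : G => (x : G ⧸ H) = (g : G ⧸ H))).card := by
  rw [← Finset.card_image_of_injOn (f := fun h : H => g * (h : G)) (s := sec H g F)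
    (fun a _ b _ hab => Subtype.ext (mul_left_cancel hab))]
  congr 1
  ext x
  rw [Finset.mem_image, Finset.mem_filter]
  constructor
  · rintro ⟨h, hh, rfl⟩
    refine ⟨mem_sec.1 hh, ?_⟩
    rw [eq_comm, QuotientGroup.eq]
    simp
  · rintro ⟨hx, hxg⟩
    rw [eq_comm, QuotientGroup.eq] at hxg
    exact ⟨⟨g⁻¹ * x, hxg⟩, mem_sec.2 (by simpa using hx), by simp⟩

open Classical in
lemma sum_card_sec (H : Subgroup G) (F : Finset G) (Q : Finset (G ⧸ H))
    (hQ : ∀ x ∈ F, (x : G ⧸ H) ∈ Q) : F.card = ∑ q ∈ Q, (sec H q.out F).card := by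
  rw [Finset.card_eq_sum_card_fiberwise (f := fun x : G => (x : G ⧸ H)) (t := Q)
    (fun x hx => hQ x hx)]
  apply Finset.sum_congr rfl
  intro q _
  rw [card_sec]
  congr 1
  ext x
  simp

lemma symmDiff_sec [DecidableEq G] (H : Subgroup G) [DecidableEq H] (g : G) (F : Finset G) (h : H) :
    symmDiff ((sec H g F).image (fun x => x * h)) (sec H g F) =
      sec H g (symmDiff (F.image (fun x => x * (h : G))) F) := by
  have e : ∀ y : H, y ∈ (sec H g F).image (fun x => x * h) ↔
      g * (y : G) ∈ F.image (fun x => x * (h : G)) := by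
    intro y
    rw [Finset.mem_image, Finset.mem_image]
    constructor
    · rintro ⟨z, hz, rfl⟩
      exact ⟨g * (z : G), mem_sec.1 hz, by simp [mul_assoc]⟩
    · rintro ⟨z, hz, hzy⟩
      refine ⟨y * h⁻¹, mem_sec.2 ?_, by simp⟩
      have : g * ((y * h⁻¹ : H) : G) = z := by
        rw [Subgroup.coe_mul, Subgroup.coe_inv, ← mul_assoc, ← hzy]; simp
      rw [this]; exact hz
  ext y
  rw [Finset.mem_symmDiff, mem_sec, mem_sec, Finset.mem_symmDiff, e]

/-- Subgroups of amenable groups are amenable. -/
lemma Amenable.subgroup (hG : Amenable G) (H : Subgroup G) : Amenable H := by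
  classical
  intro E ε hε
  set N : ℝ := (E.card : ℝ) + 1 with hN
  have hNpos : 0 < N := by positivity
  obtain ⟨F, hFne, hF⟩ := hG (E.image (fun h : H => (h : G))) (ε / N) (by positivity)
  have hFcard : (0 : ℝ) < F.card := by exact_mod_cast hFne.card_pos
  by_contra hcon
  push Not at hcon
  set Q : Finset (G ⧸ H) := F.image (fun x : G => (x : G ⧸ H)) with hQ
  set D : H → Finset G := fun h => symmDiff (F.image (fun x => x * (h : G))) F with hD
  have hQF : ∀ x ∈ F, (x : G ⧸ H) ∈ Q := fun x hx => Finset.mem_image_of_mem _ hx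
  have hQD : ∀ h : H, ∀ x ∈ D h, (x : G ⧸ H) ∈ Q := by
    intro h x hx
    rw [hD, Finset.mem_symmDiff] at hx
    rcases hx with ⟨hx, -⟩ | ⟨hx, -⟩
    · obtain ⟨y, hy, rfl⟩ := Finset.mem_image.1 hx
      have : ((y * (h : G) : G) : G ⧸ H) = (y : G ⧸ H) := by
        rw [eq_comm, QuotientGroup.eq]; simp
      rw [this]; exact hQF y hy
    · exact hQF x hx
  have h1 : ∀ h ∈ E, ((D h).card : ℝ) ≤ ε / N * F.card := by
    intro h hh
    have := hF (h : G) (Finset.mem_image_of_mem _ hh)
    rw [defect, div_le_iff₀ hFcard] at this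
    exact this
  have h2 : ∑ h ∈ E, ((D h).card : ℝ) ≤ E.card * (ε / N * F.card) := by
    rw [← nsmul_eq_mul]
    exact Finset.sum_le_card_nsmul _ _ _ h1
  have h3 : ∀ q ∈ Q, ε * ((sec H q.out F).card : ℝ) ≤ ∑ h ∈ E, ((sec H q.out (D h)).card : ℝ) := by
    intro q _
    by_cases hne : (sec H q.out F).Nonempty
    · obtain ⟨h, hh, hlt⟩ := hcon _ hne
      rw [defect, lt_div_iff₀ (by exact_mod_cast hne.card_pos), symmDiff_sec] at hlt
      refine hlt.le.trans ?_
      exact Finset.single_le_sum (f := fun h => ((sec H q.out (D h)).card : ℝ))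
        (fun _ _ => Nat.cast_nonneg _) hh
    · rw [Finset.not_nonempty_iff_eq_empty] at hne
      rw [hne]
      simp only [Finset.card_empty, Nat.cast_zero, mul_zero]
      exact Finset.sum_nonneg fun _ _ => Nat.cast_nonneg _
  have h4 : ε * (F.card : ℝ) ≤ ∑ h ∈ E, ((D h).card : ℝ) := by
    have e1 : (F.card : ℝ) = ∑ q ∈ Q, ((sec H q.out F).card : ℝ) := by
      exact_mod_cast sum_card_sec H F Q hQF
    have e2 : ∀ h : H, ((D h).card : ℝ) = ∑ q ∈ Q, ((sec H q.out (D h)).card : ℝ) := by
      intro h
      exact_mod_cast sum_card_sec H (D h) Q (hQD h)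
    rw [e1, Finset.mul_sum, Finset.sum_congr rfl (fun h _ => e2 h), Finset.sum_comm]
    exact Finset.sum_le_sum h3
  have h5 : (E.card : ℝ) * (ε / N * F.card) < ε * F.card := by
    have : (E.card : ℝ) * (ε / N * F.card) = (E.card / N) * (ε * F.card) := by
      field_simp
    rw [this]
    have h6 : (E.card : ℝ) / N < 1 := by
      rw [div_lt_one hNpos, hN]; linarith
    calc (E.card : ℝ) / N * (ε * F.card) < 1 * (ε * F.card) :=
          mul_lt_mul_of_pos_right h6 (by positivity)
      _ = _ := one_mul _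
  linarith

end Folner

/-! ### A second form of the Folner condition -/

section Second

variable {G : Type*} [Group G]

open Classical in
/-- `|{s ∈ F : s E ⊄ F}| / |F|`. -/
noncomputable def bdRatio (E F : Finset G) : ℝ :=
  ((F.filter (fun s => ∃ e ∈ E, s * e ∉ F)).card : ℝ) / (F.card : ℝ)

/-- The right Folner filter, defined with `bdRatio`. -/
noncomputable def folner' (G : Type*) [Group G] : Filter (Finset G) :=
  𝓟 {F | F.Nonempty} ⊓ ⨅ E : Finset G, comap (bdRatio E) (𝓝 0)

lemma tendsto_folner'_iff {ι : Type*} (l : Filter ι) (F : ι → Finset G) :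
    Tendsto F l (folner' G) ↔
      (∀ᶠ i in l, (F i).Nonempty) ∧ ∀ E : Finset G, Tendsto (fun i => bdRatio E (F i)) l (𝓝 0) := by
  unfold folner'
  rw [tendsto_inf, tendsto_principal, tendsto_iInf]
  simp only [tendsto_comap_iff, Function.comp_def, Set.mem_ofPred_eq]

lemma bdRatio_nonneg (E F : Finset G) : 0 ≤ bdRatio E F := by
  unfold bdRatio; positivity

lemma bdRatio_le (E F : Finset G) : bdRatio E F ≤ ∑ e ∈ E, defect e F := by
  classical
  unfold bdRatio
  simp_rw [defect_eq]
  rw [← Finset.sum_div]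
  apply div_le_div_of_nonneg_right _ (Nat.cast_nonneg _)
  have h1 : F.filter (fun s => ∃ e ∈ E, s * e ∉ F) ⊆ E.biUnion (fun e => F.filter (fun s => s * e ∉ F)) := by
    intro s hs
    obtain ⟨hs1, e, he, hse⟩ := Finset.mem_filter.1 hs
    exact Finset.mem_biUnion.2 ⟨e, he, Finset.mem_filter.2 ⟨hs1, hse⟩⟩
  have h2 : ∀ e : G, (F.filter (fun s => s * e ∉ F)).card ≤
      (symmDiff (F.image (fun x => x * e)) F).card := by
    intro e
    apply Finset.card_le_card_of_injOn (fun s => s * e)
    · intro s hs
      obtain ⟨hs1, hs2⟩ := Finset.mem_filter.1 (Finset.mem_coe.1 hs)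
      rw [Finset.mem_coe, Finset.mem_symmDiff]
      exact Or.inl ⟨Finset.mem_image_of_mem _ hs1, hs2⟩
    · intro a _ b _ hab
      exact mul_right_cancel hab
  have h3 : (F.filter (fun s => ∃ e ∈ E, s * e ∉ F)).card ≤
      ∑ e ∈ E, (symmDiff (F.image (fun x => x * e)) F).card :=
    (Finset.card_le_card h1).trans (Finset.card_biUnion_le.trans (Finset.sum_le_sum fun e _ => h2 e))
  exact_mod_cast h3

lemma defect_le (g : G) (F : Finset G) : defect g F ≤ 2 * bdRatio {g} F := by
  classical
  rw [defect_eq]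
  unfold bdRatio
  rw [mul_div_assoc']
  apply div_le_div_of_nonneg_right _ (Nat.cast_nonneg _)
  set B := F.filter (fun s => s * g ∉ F) with hB
  have e0 : F.filter (fun s => ∃ e ∈ ({g} : Finset G), s * e ∉ F) = B := by
    rw [hB]
    apply Finset.filter_congr
    intro s _
    simp
  have e1 : (F.image (fun x => x * g) \ F) = B.image (fun x => x * g) := by
    ext x
    simp only [hB, Finset.mem_sdiff, Finset.mem_image, Finset.mem_filter]
    constructor
    · rintro ⟨⟨y, hy, rfl⟩, h⟩
      exact ⟨y, ⟨hy, h⟩, rfl⟩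
    · rintro ⟨y, ⟨hy, h⟩, rfl⟩
      exact ⟨⟨y, hy, rfl⟩, h⟩
  have hinj : Function.Injective (fun x : G => x * g) := mul_left_injective g
  have e2 : (F.image (fun x => x * g) \ F).card = B.card := by
    rw [e1, Finset.card_image_of_injective _ hinj]
  have e3 : (F \ F.image (fun x => x * g)).card = B.card := by
    have h1 := Finset.card_sdiff_add_card_inter F (F.image (fun x => x * g))
    have h2 := Finset.card_sdiff_add_card_inter (F.image (fun x => x * g)) F
    rw [Finset.card_image_of_injective _ hinj, Finset.inter_comm] at h2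
    omega
  have e4 : (symmDiff (F.image (fun x => x * g)) F).card = B.card + B.card := by
    rw [symmDiff_def, Finset.sup_eq_union, Finset.card_union_of_disjoint disjoint_sdiff_sdiff, e2, e3]
  have e5 : (F.filter (fun s => ∃ e ∈ ({g} : Finset G), s * e ∉ F)).card = B.card := by rw [e0]
  rw [e4]
  have : ((B.card + B.card : ℕ) : ℝ) = 2 * (B.card : ℝ) := by push_cast; ring
  rw [this]
  apply le_of_eq
  congr 2
  exact e5.symm

theorem folner'_eq : folner' G = folner G := by
  apply le_antisymm
  · have : Tendsto (fun F : Finset G => F) (folner' G) (folner G) := by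
      rw [tendsto_folner_iff]
      obtain ⟨h1, h2⟩ := (tendsto_folner'_iff (folner' G) (fun F : Finset G => F)).1 tendsto_id
      refine ⟨h1, fun g => ?_⟩
      have h3 := (h2 {g}).const_mul 2
      rw [mul_zero] at h3
      exact squeeze_zero (fun F => defect_nonneg g F) (fun F => defect_le g F) h3
    exact this
  · have : Tendsto (fun F : Finset G => F) (folner G) (folner' G) := by
      rw [tendsto_folner'_iff]
      refine ⟨eventually_nonempty, fun E => ?_⟩
      have h3 : Tendsto (fun F : Finset G => ∑ e ∈ E, defect e F) (folner G) (𝓝 (∑ e ∈ E, 0)) :=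
        tendsto_finsetSum _ fun u _ => tendsto_defect u
      rw [Finset.sum_const_zero] at h3
      exact squeeze_zero (fun F => bdRatio_nonneg E F) (fun F => bdRatio_le E F) h3
    exact this

end Second

/-! ### Trajectories -/

section Traj

variable {G A : Type*} [Group G] [AddCommGroup A] [DistribMulAction G A]

lemma mem_traj {F : Finset G} {X : Finset A} {a : A} :
    a ∈ traj F X ↔ ∃ x : G → A, (∀ g ∈ F, x g ∈ X) ∧ ∑ g ∈ F, g • x g = a := by
  classical
  unfold traj
  rw [← Finset.mem_coe, Finset.coe_sum, Set.mem_finsetSum]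
  constructor
  · rintro ⟨y, hy, rfl⟩
    refine ⟨fun g => g⁻¹ • y g, ?_, ?_⟩
    · intro g hg
      have := hy hg
      rw [Finset.coe_smul_finset] at this
      exact_mod_cast Set.mem_smul_set_iff_inv_smul_mem.1 this
    · apply Finset.sum_congr rfl
      intro g _
      rw [smul_inv_smul]
  · rintro ⟨x, hx, rfl⟩
    refine ⟨fun g => g • x g, ?_, rfl⟩
    intro g hg
    rw [Finset.coe_smul_finset]
    exact Set.smul_mem_smul_set (by exact_mod_cast hx g hg)

lemma traj_nonempty {F : Finset G} {X : Finset A} (hX : X.Nonempty) : (traj F X).Nonempty := by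
  obtain ⟨x, hx⟩ := hX
  exact ⟨_, mem_traj.2 ⟨fun _ => x, fun _ _ => hx, rfl⟩⟩

lemma card_traj_pos {F : Finset G} {X : Finset A} (hX : X.Nonempty) : 0 < (traj F X).card :=
  (traj_nonempty hX).card_pos

lemma card_traj_mono {F F' : Finset G} {X : Finset A} (hX : X.Nonempty) (h : F ⊆ F') :
    (traj F X).card ≤ (traj F' X).card := by
  classical
  obtain ⟨x0, hx0⟩ := hX
  apply Finset.card_le_card_of_injOn (fun a => a + ∑ g ∈ F' \ F, g • x0)
  · intro a ha
    obtain ⟨x, hx, rfl⟩ := mem_traj.1 (Finset.mem_coe.1 ha)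
    rw [Finset.mem_coe, mem_traj]
    refine ⟨fun g => if g ∈ F then x g else x0, ?_, ?_⟩
    · intro g _
      dsimp only
      split_ifs with hg
      · exact hx g hg
      · exact hx0
    · rw [← Finset.sum_sdiff h, add_comm]
      congr 1
      · apply Finset.sum_congr rfl
        intro g hg
        dsimp only
        rw [if_pos hg]
      · apply Finset.sum_congr rfl
        intro g hg
        dsimp only
        rw [if_neg (Finset.mem_sdiff.1 hg).2]
  · intro a _ b _ hab
    exact add_right_cancel hab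

lemma card_traj_image [DecidableEq G] (g : G) (F : Finset G) (X : Finset A) :
    (traj (F.image (fun x => g * x)) X).card = (traj F X).card := by
  classical
  have : traj (F.image (fun x => g * x)) X = (traj F X).image (fun a => g • a) := by
    ext a
    rw [mem_traj, Finset.mem_image]
    constructor
    · rintro ⟨x, hx, rfl⟩
      refine ⟨∑ h ∈ F, h • x (g * h), mem_traj.2 ⟨fun h => x (g * h), fun h hh =>
        hx _ (Finset.mem_image_of_mem _ hh), rfl⟩, ?_⟩
      rw [Finset.sum_image (fun a _ b _ hab => mul_left_cancel hab), Finset.smul_sum]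
      apply Finset.sum_congr rfl
      intro h _
      rw [mul_smul]
    · rintro ⟨b, hb, rfl⟩
      obtain ⟨x, hx, rfl⟩ := mem_traj.1 hb
      refine ⟨fun h => x (g⁻¹ * h), ?_, ?_⟩
      · intro h hh
        obtain ⟨k, hk, rfl⟩ := Finset.mem_image.1 hh
        simpa using hx k hk
      · rw [Finset.sum_image (fun a _ b _ hab => mul_left_cancel hab), Finset.smul_sum]
        apply Finset.sum_congr rfl
        intro h _
        rw [mul_smul]; simp
  rw [this]
  exact Finset.card_image_of_injective _ (MulAction.injective g)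

/-- The main counting inequality. -/
lemma card_traj_pow_le [DecidableEq G] (F T : Finset G) {X : Finset A} (hX : X.Nonempty) :
    (traj F X).card ^ T.card ≤ (traj T X).card ^ (F * T⁻¹).card := by
  classical
  have h := Pool.Agent.X268.SumShearer.sum_shearer' (T := {g // g ∈ F}) (J := {g // g ∈ F * T⁻¹})
    X hX (fun t a => t.1 • a)
    (fun j => Finset.univ.filter (fun t : {g // g ∈ F} => (j.1)⁻¹ * t.1 ∈ T)) T.card ?_
  · have e1 : ((Fintype.piFinset fun _ : {g // g ∈ F} => X).image
        (fun x => ∑ t, t.1 • x t)).card = (traj F X).card := by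
      congr 1
      ext a
      rw [Finset.mem_image, mem_traj]
      constructor
      · rintro ⟨x, hx, rfl⟩
        refine ⟨fun g => if h : g ∈ F then x ⟨g, h⟩ else 0, ?_, ?_⟩
        · intro g hg
          dsimp only
          rw [dif_pos hg]
          exact Fintype.mem_piFinset.1 hx _
        · rw [← Finset.sum_coe_sort F]
          apply Finset.sum_congr rfl
          intro t _
          dsimp only
          rw [dif_pos t.2]
      · rintro ⟨x, hx, rfl⟩
        refine ⟨fun t => x t.1, Fintype.mem_piFinset.2 fun t => hx t.1 t.2, ?_⟩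
        exact Finset.sum_coe_sort F (fun g => g • x g)
    rw [e1] at h
    refine h.trans ?_
    have e2 : ∀ j : {g // g ∈ F * T⁻¹}, ((Fintype.piFinset fun _ : {g // g ∈ F} => X).image
        (fun x => ∑ t ∈ Finset.univ.filter (fun t : {g // g ∈ F} => (j.1)⁻¹ * t.1 ∈ T),
          t.1 • x t)).card ≤ (traj T X).card := by
      intro j
      rw [← card_traj_image j.1 T X]
      refine le_trans ?_ (card_traj_mono hX (F := F.filter (fun t => (j.1)⁻¹ * t ∈ T)) ?_)
      · apply Finset.card_le_card
        intro a ha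
        obtain ⟨x, hx, rfl⟩ := Finset.mem_image.1 ha
        rw [mem_traj]
        refine ⟨fun g => if h : g ∈ F then x ⟨g, h⟩ else 0, ?_, ?_⟩
        · intro g hg
          dsimp only
          rw [dif_pos (Finset.mem_filter.1 hg).1]
          exact Fintype.mem_piFinset.1 hx _
        · rw [Finset.sum_filter, Finset.sum_filter, ← Finset.sum_coe_sort F]
          apply Finset.sum_congr rfl
          intro t _
          dsimp only
          rw [dif_pos t.2]
      · intro t ht
        rw [Finset.mem_image]
        exact ⟨(j.1)⁻¹ * t, (Finset.mem_filter.1 ht).2, by simp⟩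
    refine (Finset.prod_le_prod' fun j _ => e2 j).trans ?_
    rw [Finset.prod_const, Finset.card_univ, Fintype.card_coe]
  · intro t
    have hm : ∀ u ∈ T, t.1 * u⁻¹ ∈ F * T⁻¹ := fun u hu =>
      Finset.mul_mem_mul t.2 (Finset.inv_mem_inv hu)
    refine ⟨T.attach.image (fun u => (⟨t.1 * u.1⁻¹, hm u.1 u.2⟩ : {g // g ∈ F * T⁻¹})), ?_, ?_⟩
    · rw [Finset.card_image_of_injective, Finset.card_attach]
      intro u v huv
      have := congrArg Subtype.val huv
      exact Subtype.ext (inv_injective (mul_left_cancel this))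
    · intro j hj
      obtain ⟨u, _, rfl⟩ := Finset.mem_image.1 hj
      rw [Finset.mem_filter]
      refine ⟨Finset.mem_univ _, ?_⟩
      have : (t.1 * u.1⁻¹)⁻¹ * t.1 = u.1 := by group
      rw [this]; exact u.2

/-- The ratio `log |T_F(X)| / |F|`. -/
noncomputable def ratio (X : Finset A) (F : Finset G) : ℝ :=
  Real.log ((traj F X).card : ℝ) / (F.card : ℝ)

lemma ratio_nonneg (X : Finset A) (F : Finset G) : 0 ≤ ratio X F := by
  unfold ratio
  apply div_nonneg (Real.log_natCast_nonneg _) (Nat.cast_nonneg _)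

/-- The infimum of the ratios over nonempty finite sets. -/
noncomputable def minRatio (G : Type*) {A : Type*} [Group G] [AddCommGroup A]
    [DistribMulAction G A] (X : Finset A) : ℝ :=
  ⨅ T : {T : Finset G // T.Nonempty}, ratio X T.1

lemma bddBelow_ratio (X : Finset A) :
    BddBelow (Set.range fun T : {T : Finset G // T.Nonempty} => ratio X T.1) :=
  ⟨0, by rintro _ ⟨T, rfl⟩; exact ratio_nonneg _ _⟩

lemma minRatio_le (X : Finset A) {T : Finset G} (hT : T.Nonempty) : minRatio G X ≤ ratio X T :=
  ciInf_le (bddBelow_ratio X) ⟨T, hT⟩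

instance : Nonempty {T : Finset G // T.Nonempty} := ⟨⟨{1}, by simp⟩⟩

lemma card_mul_inv_le [DecidableEq G] (F T : Finset G) (hF : F.Nonempty) :
    ((F * T⁻¹).card : ℝ) ≤ F.card * (1 + ∑ u ∈ T, defect u⁻¹ F) := by
  have h1 : F * T⁻¹ ⊆ F ∪ T.biUnion (fun u => symmDiff (F.image (fun x => x * u⁻¹)) F) := by
    intro x hx
    rw [Finset.mem_mul] at hx
    obtain ⟨y, hy, z, hz, rfl⟩ := hx
    rw [Finset.mem_union]
    by_cases hyz : y * z ∈ F
    · exact Or.inl hyz
    · right
      rw [Finset.mem_biUnion]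
      refine ⟨z⁻¹, Finset.mem_inv'.1 hz, ?_⟩
      rw [Finset.mem_symmDiff]
      left
      refine ⟨Finset.mem_image.2 ⟨y, hy, by simp⟩, hyz⟩
  have h2 : (F * T⁻¹).card ≤ F.card + ∑ u ∈ T, (symmDiff (F.image (fun x => x * u⁻¹)) F).card :=
    (Finset.card_le_card h1).trans ((Finset.card_union_le _ _).trans
      (Nat.add_le_add_left Finset.card_biUnion_le _))
  have hF0 : (0 : ℝ) < F.card := by exact_mod_cast hF.card_pos
  have h3 : ∀ u : G, ((symmDiff (F.image (fun x => x * u⁻¹)) F).card : ℝ) =
      F.card * defect u⁻¹ F := by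
    intro u
    rw [defect_eq, mul_div_cancel₀ _ hF0.ne']
  calc ((F * T⁻¹).card : ℝ) ≤ ((F.card + ∑ u ∈ T, (symmDiff (F.image (fun x => x * u⁻¹)) F).card : ℕ) : ℝ) := by
        exact_mod_cast h2
    _ = F.card * (1 + ∑ u ∈ T, defect u⁻¹ F) := by
        push_cast
        rw [Finset.sum_congr rfl (fun u _ => h3 u), ← Finset.mul_sum]; ring

lemma ratio_le (F T : Finset G) {X : Finset A} (hX : X.Nonempty) (hF : F.Nonempty)
    (hT : T.Nonempty) : ratio X F ≤ (1 + ∑ u ∈ T, defect u⁻¹ F) * ratio X T := by
  classical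
  have hF0 : (0 : ℝ) < F.card := by exact_mod_cast hF.card_pos
  have hT0 : (0 : ℝ) < T.card := by exact_mod_cast hT.card_pos
  have h1 : (T.card : ℝ) * Real.log ((traj F X).card : ℝ) ≤
      ((F * T⁻¹).card : ℝ) * Real.log ((traj T X).card : ℝ) := by
    rw [← Real.log_pow, ← Real.log_pow]
    apply Real.log_le_log
    · have := card_traj_pos (F := F) hX
      positivity
    · exact_mod_cast card_traj_pow_le F T hX
  have h2 := card_mul_inv_le F T hF
  have h3 : 0 ≤ Real.log ((traj T X).card : ℝ) := Real.log_natCast_nonneg _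
  unfold ratio
  rw [div_le_iff₀ hF0, mul_assoc, div_mul_eq_mul_div, mul_div_assoc', le_div_iff₀ hT0]
  calc Real.log ((traj F X).card : ℝ) * T.card = T.card * Real.log ((traj F X).card : ℝ) := mul_comm _ _
    _ ≤ _ := h1
    _ ≤ (F.card * (1 + ∑ u ∈ T, defect u⁻¹ F)) * Real.log ((traj T X).card : ℝ) :=
        mul_le_mul_of_nonneg_right h2 h3
    _ = _ := by ring

/-- The limit defining `H_alg` exists and is the infimum of the ratios. -/
theorem tendsto_ratio {X : Finset A} (hX : X.Nonempty) :
    Tendsto (fun F : Finset G => ratio X F) (folner G) (𝓝 (minRatio G X)) := by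
  rw [tendsto_order]
  constructor
  · intro a ha
    filter_upwards [eventually_nonempty] with F hF
    exact ha.trans_le (minRatio_le X hF)
  · intro b hb
    obtain ⟨⟨T, hT⟩, hTb⟩ := exists_lt_of_ciInf_lt hb
    dsimp only at hTb
    have h1 : Tendsto (fun F : Finset G => (1 + ∑ u ∈ T, defect u⁻¹ F) * ratio X T) (folner G)
        (𝓝 ((1 + ∑ u ∈ T, 0) * ratio X T)) :=
      (tendsto_const_nhds.add (tendsto_finsetSum _ fun u _ => tendsto_defect u⁻¹)).mul_const _
    rw [Finset.sum_const_zero, add_zero, one_mul] at h1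
    filter_upwards [eventually_nonempty, h1.eventually_lt_const hTb] with F hF hlt
    exact (ratio_le F T hX hF hT).trans_lt hlt

theorem Halg_eq (hG : Amenable G) {X : Finset A} (hX : X.Nonempty) :
    Halg G X = minRatio G X := by
  have := hG.neBot
  exact (tendsto_ratio hX).limUnder_eq

end Traj

/-! ### Restriction to subgroups -/

section Restrict

variable {G A : Type*} [Group G] [AddCommGroup A] [DistribMulAction G A] (H : Subgroup G)

open Classical in
lemma traj_map (T : Finset H) (X : Finset A) :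
    traj (T.map (Function.Embedding.subtype _)) X = traj T X := by
  unfold traj
  rw [Finset.sum_map]
  rfl

lemma ratio_map (T : Finset H) (X : Finset A) :
    ratio X (T.map (Function.Embedding.subtype _)) = ratio X T := by
  unfold ratio
  rw [traj_map, Finset.card_map]

lemma minRatio_le_subgroup (X : Finset A) : minRatio G X ≤ minRatio H X := by
  refine le_ciInf fun T => ?_
  rw [← ratio_map]
  exact minRatio_le X (T.2.map)

lemma Halg_le_subgroup (hG : Amenable G) {X : Finset A} (hX : X.Nonempty) :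
    Halg G X ≤ Halg H X := by
  rw [Halg_eq hG hX, Halg_eq (hG.subgroup H) hX]
  exact minRatio_le_subgroup H X

theorem halg_le_subgroup (hG : Amenable G) : halg G A ≤ halg H A :=
  iSup₂_mono fun _ hX => ENNReal.ofReal_le_ofReal (Halg_le_subgroup H hG hX)

lemma nonempty_of_subgroup {X : Finset A} (h : ∃ K : AddSubgroup A, (K : Set A) = (X : Set A)) :
    X.Nonempty := by
  obtain ⟨K, hK⟩ := h
  refine ⟨0, ?_⟩
  rw [← Finset.mem_coe, ← hK]
  exact K.zero_mem

theorem ent_le_subgroup (hG : Amenable G) : ent G A ≤ ent H A :=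
  iSup₂_mono fun _ hX => ENNReal.ofReal_le_ofReal (Halg_le_subgroup H hG (nonempty_of_subgroup hX))

lemma traj_traj [DecidableEq G] (S : Finset G)
    (hS : ∀ s ∈ S, ∀ s' ∈ S, s * s'⁻¹ ∈ H → s = s') (T : Finset H) (X : Finset A) :
    traj T (traj S X) = traj (T.map (Function.Embedding.subtype _) * S) X ∧
      (T.map (Function.Embedding.subtype _) * S).card = T.card * S.card := by
  have hinj : Set.InjOn (fun p : G × G => p.1 * p.2)
      ((T.map (Function.Embedding.subtype _) : Finset G) ×ˢ S : Finset (G × G)) := by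
    rintro ⟨a, b⟩ hab ⟨c, d⟩ hcd h
    rw [Finset.mem_coe, Finset.mem_product] at hab hcd
    dsimp only at hab hcd h
    obtain ⟨⟨a', _, ha'⟩, hb⟩ := And.intro (Finset.mem_map.1 hab.1) hab.2
    obtain ⟨⟨c', _, hc'⟩, hd⟩ := And.intro (Finset.mem_map.1 hcd.1) hcd.2
    have e : b * d⁻¹ = a⁻¹ * c := by
      rw [eq_inv_mul_iff_mul_eq, ← mul_assoc, h]; simp
    have hbd : b = d := by
      apply hS b hb d hd
      rw [e, ← ha', ← hc']
      exact (a'⁻¹ * c').2
    subst hbd
    rw [mul_right_cancel h]
  have hprod : (T.map (Function.Embedding.subtype _) : Finset G) * S =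
      ((T.map (Function.Embedding.subtype _) : Finset G) ×ˢ S).image (fun p => p.1 * p.2) := rfl
  constructor
  · ext a
    rw [mem_traj, mem_traj, hprod]
    constructor
    · rintro ⟨x, hx, rfl⟩
      have hx' : ∀ t : H, ∃ y : G → A, t ∈ T → (∀ g ∈ S, y g ∈ X) ∧ ∑ g ∈ S, g • y g = x t := by
        intro t
        by_cases ht : t ∈ T
        · obtain ⟨y, hy⟩ := mem_traj.1 (hx t ht)
          exact ⟨y, fun _ => hy⟩
        · exact ⟨fun _ => 0, fun h => absurd h ht⟩
      choose y hy using hx'
      -- a function on `G` with the right values on products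
      have hz : ∀ u : G, ∃ b : A, ∀ t ∈ T, ∀ s ∈ S, u = (t : G) * s → b = y t s := by
        intro u
        by_cases hu : ∃ t ∈ T, ∃ s ∈ S, u = (t : G) * s
        · obtain ⟨t, ht, s, hs, rfl⟩ := hu
          refine ⟨y t s, ?_⟩
          intro t' ht' s' hs' h'
          have m1 : ((t : G), s) ∈ ((T.map (Function.Embedding.subtype _) : Finset G) ×ˢ S) :=
            Finset.mem_product.2 ⟨Finset.mem_map.2 ⟨t, ht, rfl⟩, hs⟩
          have m2 : ((t' : G), s') ∈ ((T.map (Function.Embedding.subtype _) : Finset G) ×ˢ S) :=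
            Finset.mem_product.2 ⟨Finset.mem_map.2 ⟨t', ht', rfl⟩, hs'⟩
          have := hinj (Finset.mem_coe.2 m1) (Finset.mem_coe.2 m2) h'
          have h1 : t = t' := Subtype.ext (congrArg Prod.fst this)
          have h2 : s = s' := congrArg Prod.snd this
          rw [h1, h2]
        · push Not at hu
          exact ⟨0, fun t ht s hs h => absurd h (hu t ht s hs)⟩
      choose z hz using hz
      refine ⟨z, ?_, ?_⟩
      · intro u hu
        obtain ⟨⟨a, b⟩, hab, rfl⟩ := Finset.mem_image.1 hu
        rw [Finset.mem_product] at hab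
        obtain ⟨t, ht, hta⟩ := Finset.mem_map.1 hab.1
        dsimp only at hta hab
        rw [hz _ t ht b hab.2 (by rw [← hta]; rfl)]
        exact (hy t ht).1 b hab.2
      · rw [Finset.sum_image hinj, Finset.sum_product, Finset.sum_map]
        apply Finset.sum_congr rfl
        intro t ht
        rw [← (hy t ht).2, Finset.smul_sum]
        apply Finset.sum_congr rfl
        intro s hs
        show ((t : G) * s) • z ((t : G) * s) = (t : G) • s • y t s
        rw [hz _ t ht s hs rfl, mul_smul]
    · rintro ⟨z, hz, rfl⟩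
      refine ⟨fun t => ∑ s ∈ S, s • z ((t : G) * s), ?_, ?_⟩
      · intro t ht
        refine mem_traj.2 ⟨fun s => z ((t : G) * s), fun s hs => ?_, rfl⟩
        apply hz
        exact Finset.mem_image.2 ⟨((t : G), s),
          Finset.mem_product.2 ⟨Finset.mem_map.2 ⟨t, ht, rfl⟩, hs⟩, rfl⟩
      · rw [Finset.sum_image hinj, Finset.sum_product, Finset.sum_map]
        apply Finset.sum_congr rfl
        intro t ht
        show (t : G) • (∑ s ∈ S, s • z ((t : G) * s)) = ∑ s ∈ S, ((t : G) * s) • z ((t : G) * s)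
        rw [Finset.smul_sum]
        apply Finset.sum_congr rfl
        intro s _
        rw [mul_smul]
  · rw [hprod, Finset.card_image_of_injOn hinj, Finset.card_product, Finset.card_map]

/-- With `m` distinct right cosets the entropy of the sum of the translates over `H` is at least
`m` times the entropy over `G`. -/
lemma mul_Halg_le (hG : Amenable G) (S : Finset G) (hSne : S.Nonempty)
    (hS : ∀ s ∈ S, ∀ s' ∈ S, s * s'⁻¹ ∈ H → s = s') {X : Finset A} (hX : X.Nonempty) :
    (S.card : ℝ) * Halg G X ≤ Halg H (traj S X) := by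
  classical
  rw [Halg_eq hG hX, Halg_eq (hG.subgroup H) (traj_nonempty hX)]
  refine le_ciInf fun T => ?_
  obtain ⟨h1, h2⟩ := traj_traj H S hS T.1 X
  have hne : (T.1.map (Function.Embedding.subtype _) * S : Finset G).Nonempty :=
    Finset.Nonempty.mul (T.2.map) hSne
  have h3 := minRatio_le (G := G) X hne
  have hS0 : (0 : ℝ) < S.card := by exact_mod_cast hSne.card_pos
  have hT0 : (0 : ℝ) < T.1.card := by exact_mod_cast T.2.card_pos
  calc (S.card : ℝ) * minRatio G X ≤
      S.card * ratio X (T.1.map (Function.Embedding.subtype _) * S : Finset G) :=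
        mul_le_mul_of_nonneg_left h3 hS0.le
    _ = ratio (traj S X) T.1 := by
        unfold ratio
        rw [h1, h2]
        push_cast
        field_simp

lemma exists_cosets (hH : H.index = 0) (m : ℕ) : ∃ S : Finset G, S.card = m ∧
    ∀ s ∈ S, ∀ s' ∈ S, s * s'⁻¹ ∈ H → s = s' := by
  classical
  have hinf : Infinite (G ⧸ H) := by
    rw [← Subgroup.index_eq_zero_iff_infinite]; exact hH
  obtain ⟨Q, hQ⟩ := Infinite.exists_subset_card_eq (G ⧸ H) m
  have hinj : Function.Injective (fun q : G ⧸ H => (q.out)⁻¹) := by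
    intro q q' h
    have := inv_injective h
    rw [← Quotient.out_eq q, ← Quotient.out_eq q', this]
  refine ⟨Q.image (fun q => (q.out)⁻¹), ?_, ?_⟩
  · rw [Finset.card_image_of_injective _ hinj, hQ]
  · intro s hs s' hs' h
    obtain ⟨q, _, rfl⟩ := Finset.mem_image.1 hs
    obtain ⟨q', _, rfl⟩ := Finset.mem_image.1 hs'
    have : q = q' := by
      rw [inv_inv] at h
      have := QuotientGroup.eq.2 h
      simpa using this
    rw [this]

/-- If the entropy over a subgroup of infinite index is finite, the entropy vanishes. -/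
lemma ofReal_Halg_eq_zero (hG : Amenable G) (hH : H.index = 0) {X : Finset A} (hX : X.Nonempty)
    (C : ℝ≥0∞) (hC : C ≠ ⊤) (h : ∀ S : Finset G, S.Nonempty → ENNReal.ofReal (Halg H (traj S X)) ≤ C) :
    ENNReal.ofReal (Halg G X) = 0 := by
  rw [ENNReal.ofReal_eq_zero]
  by_contra hcon
  push Not at hcon
  obtain ⟨m, hm⟩ := exists_nat_gt (C.toReal / Halg G X)
  have hm0 : 0 < m := by
    have : (0 : ℝ) ≤ C.toReal / Halg G X := by positivity
    exact_mod_cast this.trans_lt hm
  obtain ⟨S, hSc, hS⟩ := exists_cosets H hH m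
  have hSne : S.Nonempty := Finset.card_pos.1 (by omega)
  have h1 := mul_Halg_le H hG S hSne hS hX
  have h2 := h S hSne
  have h3 : ENNReal.ofReal ((S.card : ℝ) * Halg G X) ≤ C :=
    (ENNReal.ofReal_le_ofReal h1).trans h2
  rw [ENNReal.ofReal_le_iff_le_toReal hC, hSc] at h3
  rw [div_lt_iff₀ hcon] at hm
  linarith

theorem halg_eq_zero (hG : Amenable G) (hH : H.index = 0) (h : halg H A < ⊤) : halg G A = 0 := by
  unfold halg
  rw [ENNReal.iSup_eq_zero]
  intro X
  rw [ENNReal.iSup_eq_zero]
  intro hX
  refine ofReal_Halg_eq_zero H hG hH hX (halg H A) h.ne fun S _ => ?_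
  exact le_iSup₂ (f := fun (X : Finset A) (_ : X.Nonempty) => ENNReal.ofReal (Halg H X)) (traj S X)
    (traj_nonempty hX)

lemma traj_subgroup (S : Finset G) {X : Finset A}
    (h : ∃ K : AddSubgroup A, (K : Set A) = (X : Set A)) :
    ∃ K : AddSubgroup A, (K : Set A) = (traj S X : Set A) := by
  obtain ⟨K, hK⟩ := h
  have hmem : ∀ a : A, a ∈ X ↔ a ∈ K := by
    intro a
    rw [← Finset.mem_coe, ← hK]; rfl
  refine ⟨{ carrier := (traj S X : Set A), zero_mem' := ?_, add_mem' := ?_, neg_mem' := ?_ }, rfl⟩
  · intro a b ha hb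
    obtain ⟨x, hx, rfl⟩ := mem_traj.1 (Finset.mem_coe.1 ha)
    obtain ⟨y, hy, rfl⟩ := mem_traj.1 (Finset.mem_coe.1 hb)
    refine Finset.mem_coe.2 (mem_traj.2 ⟨fun g => x g + y g, fun g hg => ?_, ?_⟩)
    · exact (hmem _).2 (K.add_mem ((hmem _).1 (hx g hg)) ((hmem _).1 (hy g hg)))
    · rw [← Finset.sum_add_distrib]
      exact Finset.sum_congr rfl fun g _ => smul_add _ _ _
  · refine Finset.mem_coe.2 (mem_traj.2 ⟨fun g => 0, fun g hg => (hmem _).2 K.zero_mem, ?_⟩)
    simp
  · intro a ha
    obtain ⟨x, hx, rfl⟩ := mem_traj.1 (Finset.mem_coe.1 ha)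
    refine Finset.mem_coe.2 (mem_traj.2 ⟨fun g => -x g, fun g hg => ?_, ?_⟩)
    · exact (hmem _).2 (K.neg_mem ((hmem _).1 (hx g hg)))
    · rw [← Finset.sum_neg_distrib]
      exact Finset.sum_congr rfl fun g _ => smul_neg _ _

theorem ent_eq_zero (hG : Amenable G) (hH : H.index = 0) (h : ent H A < ⊤) : ent G A = 0 := by
  unfold ent
  rw [ENNReal.iSup_eq_zero]
  intro X
  rw [ENNReal.iSup_eq_zero]
  intro hX
  refine ofReal_Halg_eq_zero H hG hH (nonempty_of_subgroup hX) (ent H A) h.ne fun S _ => ?_
  exact le_iSup₂ (f := fun (X : Finset A) (_ : ∃ K : AddSubgroup A, (K : Set A) = (X : Set A)) =>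
    ENNReal.ofReal (Halg H X)) (traj S X) (traj_subgroup S hX)

end Restrict

end Pool.Agent.X268.Entropy
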